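import Pool.Agent.Lib.helper18.BTree

set_option autoImplicit false

namespace Pool.Agent.Results.MP_4edf50_co.Unbounded

/-- The eccentricity `e(v) = max_u d(u, v)`. -/
noncomputable def ecc {V : Type} [Fintype V] (G : SimpleGraph V) (v : V) : ℕ :=
  Finset.univ.sup fun u => G.dist u v

/-- A broadcast: `f(v) ≤ e(v)` for every vertex `v`. -/
def IsBroadcast {V : Type} [Fintype V] (G : SimpleGraph V) (f : V → ℕ) : Prop :=
  ∀ v, f v ≤ ecc G v

/-- Every vertex `u` has `d(u, v) ≤ f(v)` for some `v` with `f(v) > 0`. -/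
def IsDomBroadcast {V : Type} (G : SimpleGraph V) (f : V → ℕ) : Prop :=
  ∀ u, ∃ v, 0 < f v ∧ G.dist u v ≤ f v

/-- A minimal dominating broadcast. -/
def IsMinDomBroadcast {V : Type} [Fintype V] (G : SimpleGraph V) (f : V → ℕ) : Prop :=
  IsBroadcast G f ∧ IsDomBroadcast G f ∧
    ∀ g : V → ℕ, IsBroadcast G g → (∀ v, g v ≤ f v) → (∃ v, g v < f v) → ¬ IsDomBroadcast G g

/-- The upper broadcast domination number `Γ_b(G)`. -/
noncomputable def upperBroadcast {V : Type} [Fintype V] (G : SimpleGraph V) : ℕ :=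
  sSup {n | ∃ f : V → ℕ, IsMinDomBroadcast G f ∧ ∑ v, f v = n}

/-- A boundary independent broadcast: `N_f(u) ∩ N_f(v) ⊆ B_f(u) ∩ B_f(v)` for all distinct
broadcasting vertices `u, v`. -/
def IsBnBroadcast {V : Type} [Fintype V] (G : SimpleGraph V) (f : V → ℕ) : Prop :=
  IsBroadcast G f ∧ ∀ u v, u ≠ v → 0 < f u → 0 < f v → ∀ w, G.dist w u ≤ f u →
    G.dist w v ≤ f v → G.dist w u = f u ∧ G.dist w v = f v

/-- The boundary independence number `α_bn(G)`. -/
noncomputable def alphaBn {V : Type} [Fintype V] (G : SimpleGraph V) : ℕ :=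
  sSup {n | ∃ f : V → ℕ, IsBnBroadcast G f ∧ ∑ v, f v = n}

open H18Bt in
theorem result : ∀ C : ℕ, ∃ (W : Type) (_ : Fintype W) (T : SimpleGraph W),
    2 ≤ Fintype.card W ∧ T.IsTree ∧ alphaBn T + C < upperBroadcast T := by
  classical
  intro C
  obtain ⟨d, hd⟩ : ∃ d, d = 2 * C + 6 := ⟨_, rfl⟩
  refine ⟨V d, inferInstance, Tr d, ?_, isTree d, ?_⟩
  · simp only [Fintype.card_prod, Fintype.card_fin]; omega
  have hA : alphaBn (Tr d) ≤ (29 * d + 4) / 2 := by
    refine csSup_le' ?_
    rintro n ⟨f, ⟨hf, hbn⟩, rfl⟩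
    have := bn_le d (by omega) f (fun v => by
      obtain ⟨u, -, hu⟩ := Finset.exists_mem_eq_sup Finset.univ Finset.univ_nonempty
        (fun u => (Tr d).dist u v)
      exact ⟨u, hu ▸ hf v⟩) hbn
    omega
  let f : V d → ℕ := fun p => if p.2 = 0 then 5 * d else 0
  have hf : IsMinDomBroadcast (Tr d) f := by
    refine ⟨fun v => ?_, fun u => ?_, fun g _ hg ⟨v, hv⟩ hdom => ?_⟩
    · obtain ⟨i, j⟩ := v
      simp only [f]
      split_ifs with h
      · subst h
        refine le_trans ?_
          (Finset.le_sup (f := fun u => (Tr d).dist u (i, 0)) (Finset.mem_univ (i, Fin.last _)))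
        simp [dist_eq, D, ab]
      · exact Nat.zero_le _
    · refine ⟨(u.1, 0), by simp only [f, if_true]; omega, ?_⟩
      have := u.2.isLt
      simp [dist_eq, D, ab, f]; omega
    · obtain ⟨i, j⟩ := v
      have hj : j = 0 := by
        by_contra h; simp [f, h] at hv
      subst hj
      obtain ⟨⟨i', j'⟩, h2, h3⟩ := hdom (i, Fin.last _)
      have h4 := hg (i', j')
      have hj' : j' = 0 := by
        by_contra h; simp only [f, h, if_false] at h4; omega
      subst hj'
      simp only [f, if_true] at h4 hv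
      by_cases h : i = i'
      · subst h
        simp [dist_eq, D, ab] at h3; omega
      · have h5 : i.val ≠ i'.val := fun e => h (Fin.ext e)
        have := i.isLt; have := i'.isLt
        simp only [dist_eq, D, ab, Fin.val_last, Fin.val_zero, if_neg h5] at h3
        split_ifs at h3 <;> omega
  have hs : ∑ v, f v = 15 * d := by
    rw [Fintype.sum_prod_type]
    simp [f]; omega
  have hb : 15 * d ≤ upperBroadcast (Tr d) := by
    refine le_csSup ⟨∑ v, ecc (Tr d) v, ?_⟩ ⟨f, hf, hs⟩
    rintro n ⟨g, hg, rfl⟩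
    exact Finset.sum_le_sum fun v _ => hg.1 v
  omega

end Pool.Agent.Results.MP_4edf50_co.Unbounded
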